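import Pool.Agent.H45.UZ.TarP

/-!
# MP_f6fd33_lc, module A
-/

open Ordinal Order Set
open scoped ZFSet

namespace SE.UZ

open SF

theorem pf_A (hLL : T_LL) : T_A := fun D κ b σ hc => (hLL D κ b σ hc).2.1

end SE.UZ
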