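import Pool.Agent.H45.UZ.TarP

/-!
# MP_f6fd33_lc, module A1: the amalgamation of worlds of the same stage
-/

set_option linter.unusedVariables false

open Ordinal Order Set
open scoped ZFSet

namespace SE.UZ

open SF

namespace H30A1

theorem tm_K : Tm ZFm (fun _ v => resS (v 0) fun w => v 1) :=
  Tm.resS (f := fun _ v => v 0) (g := fun _ v => v 2) (Tm.var 0) (Tm.var 2)

end H30A1

open H30A1 in
theorem pf_A1 (PWE : T_PWE) (PSJ : T_PSJ) (POA : T_POA) (PHA : T_PHA) (QRM : T_QRM)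
    (QRN : T_QRN) (BL : T_BL) : T_A1 := by
  intro D κ b σ hc I B h Bp nI nB nh hBp hw ha1 hj
  obtain ⟨am, ok, sN⟩ := hc
  have DO : D.Ok := am.ok
  have kN : ZFm D.N := DO.zfc.toZFCm.toZFm
  have csP : CS D (b.u Bp) := ok.cs Bp hBp.o
  have nP : D.N (b.u Bp) := kN.trans _ DO.hN _ csP.h
  have iw : ∀ v ∈ I, b.Iw D (b.Wd D) σ (app B v) (app h v) := fun v hv =>
    (PWE b D σ _ _).1 (hw v hv).1
  have sub : ∀ v ∈ I, b.u (app B v) ⊆ b.u Bp := fun v hv => (ok.leO _ _ (hw v hv).2).2.2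
  have csv : ∀ v ∈ I, CS D (b.u (app B v)) := fun v hv => ok.cs _ (ok.leO _ _ (hw v hv).2).1
  have nv : ∀ v ∈ I, D.N (b.u (app B v)) := fun v hv => kN.trans _ DO.hN _ (csv v hv).h
  have tv : ∀ v ∈ I, Tr (b.u (app B v)) := fun v hv i hi => ((csv v hv).c i hi).2
  have co : ∀ v ∈ I, ∀ j ∈ b.u (app B v), b.Co j → vw j ⊆ b.u (app B v) := fun v hv j hj hcj =>
    ((POA D κ am b ok _ (iw v hv).wo.o).2.2 j hj hcj).2.1
  have pa : ∀ v ∈ I, ∀ G, D.Gn (b.u Bp) G → ∀ X y e,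
      (Ent (app h v) G X y e ↔ Ent (app h v) (gs G (b.u (app B v))) X y e) ∧
      (Ent (app h v) G X y e → RR D (b.u (app B v)) G X ∧ RR D (b.u (app B v)) G y ∧ e < σ ∧
        D.N e.toZFSet) := fun v hv G hG =>
    ((PHA D DO _ _ _ _ (nv v hv) (csv v hv).c nP csP.c (sub v hv) (iw v hv).wo.hs).1 G hG).1
  have gv : ∀ v ∈ I, ∀ G, D.Gn (b.u Bp) G → D.Gn (b.u (app B v)) (gs G (b.u (app B v))) :=
    fun v hv G hG => ((BL D DO _ G nP csP.c hG).2 _ (nv v hv) (sub v hv) (tv v hv)).1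
  refine ⟨nI, nB, nh, ?_, hBp, fun v hv => le_rfl, fun v hv => (hw v hv).1,
    fun v hv => (hw v hv).2, ?_, ?_, ?_⟩
  · exact tm_K.1 D.N kN (cons I fun _ => σ.toZFSet) (In.cons (fun _ => sN) nI)
  · intro G hG v hv v' hv' X hX y e he _
    exact ha1 G hG v hv v' hv' X hX y e he
  · intro j hjP hcj
    obtain ⟨v, hv, hjv⟩ := hj j hjP hcj
    refine ⟨v, hv, co v hv j hjv hcj, (PSJ b D (b.Wd D)).2.2.2.2.2.2.1 σ (tm j),
      (iw v hv).w0 j hjv hcj, ?_⟩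
    intro G hG X y e _ hE
    have h1 := ((QRN D DO (b.u Bp) G (b.u (app B v)) nP csP.c hG (nv v hv) (sub v hv)
      (tv v hv)).2.2.2.2.2.2.2.2.2.2.2.2.2.2 j hjv).2.1
    rw [← h1]
    exact (iw v hv).w1 j hjv hcj _ (gv v hv G hG) X y e ((pa v hv G hG X y e).1.1 hE)
  · intro G hG j hjP hcj v hv X y e hE hls ht hs
    obtain ⟨v', hv', hjv⟩ := hj j hjP hcj
    have hvw : vw j ⊆ b.u (app B v') := co v' hv' j hjv hcj
    obtain ⟨x1, x2, x3, -⟩ := (pa v hv G hG X y e).2 hE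
    have nw : D.N (vw j) := ((POA D κ am b ok _ (iw v' hv').wo.o).2.2 j hjv hcj).2.2.2.1
    have tw : Tr (vw j) := ((POA D κ am b ok _ (iw v' hv').wo.o).2.2 j hjv hcj).2.2.2.2.1
    have hX' : RR D (b.u (app B v')) G X :=
      (QRN D DO (b.u Bp) G (vw j) nP csP.c hG nw (fun z hz => sub v' hv' (hvw hz))
        tw).2.2.2.2.2.2.2.1 _ (nv v' hv') hvw (sub v' hv') (tv v' hv') X hs.1
    have hX2 : RR D (b.u (app B v) ∩ b.u (app B v')) G X :=
      QRM D DO (b.u Bp) G _ _ nP csP.c hG (nv v hv) (nv v' hv') (sub v hv) (sub v' hv')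
        (tv v hv) (tv v' hv') X x1 hX'
    have hE' : Ent (app h v') G X y e := (ha1 G hG v hv v' hv' X hX2 y e x3).1 hE
    have hg : gs (gs G (b.u (app B v'))) (vw j) = gs G (vw j) :=
      ((BL D DO _ G nP csP.c hG).2 _ (nv v' hv') (sub v' hv') (tv v' hv')).2.2.2.2.2.2 _ hvw
    refine ((iw v' hv').w3 e x3 hls _ (gv v' hv' G hG) X y ((pa v' hv' G hG X y e).1.1 hE')).2
      j hjv hcj ht ?_
    unfold Sn RR
    rw [hg]
    exact hs

end SE.UZ
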