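import Pool.Agent.H45.UZ.TarP

/-!
# MP_f6fd33_lc, module CPF: families of copies of worlds over a face
-/

set_option linter.unusedVariables false

open Ordinal Order Set
open scoped ZFSet

namespace SE.UZ

open SF

namespace H30CPF

theorem tm_mvh (hBBc : T_BBc) : Tm ZFm (fun _ v => mvh (v 0) (v 1)) := by
  have tmv : Tm ZFm (fun _ v => mv (v 0) (v 1)) := hBBc.2.2.1
  have tmn : Tm ZFm (fun _ v => mvn (v 0) (v 1)) :=
    Tm.image (g := fun _ v => ZFSet.pair (mv (v 1) (fst (v 0))) (snd (v 0))) (Tm.var 1)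
      (Tm.pair (Tm.at2 tmv (Tm.var 1) (Tm.fst (Tm.var 0))) (Tm.snd (Tm.var 0)))
  exact Tm.image (g := fun _ v => mve (v 1) (v 0)) (Tm.var 1)
    (Tm.pair (Tm.at2 tmv (Tm.var 1) (Tm.fst (Tm.var 0))) (Tm.pair
      (Tm.at2 tmn (Tm.var 1) (Tm.fst (Tm.snd (Tm.var 0)))) (Tm.pair
        (Tm.at2 tmn (Tm.var 1) (Tm.fst (Tm.snd (Tm.snd (Tm.var 0)))))
        (Tm.snd (Tm.snd (Tm.snd (Tm.var 0)))))))

theorem tm_h (hBBc : T_BBc) :
    Tm ZFm (fun _ v => resS (v 0) fun w => mvh (app (v 1) w) (app (v 2) w)) :=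
  Tm.resS (f := fun _ v => v 0) (g := fun _ v => mvh (app (v 2) (v 0)) (app (v 3) (v 0)))
    (Tm.var 0) (Tm.at2 (F := fun _ x y => mvh x y) (tm_mvh hBBc)
      (Tm.app (Tm.var 2) (Tm.var 0)) (Tm.app (Tm.var 3) (Tm.var 0)))

theorem tm_tm : Tm ZFm (fun _ v => tm (v 0)) :=
  Tm.fst (Tm.snd (Tm.snd (Tm.fst (Tm.snd (Tm.var 0)))))

theorem im_idn {π s : V} (h : Idn π s) : im π s = s := by
  ext z
  unfold im
  rw [mem_imS]
  constructor
  · rintro ⟨x, hx, rfl⟩
    rw [h x hx]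
    exact hx
  · intro hz
    exact ⟨z, hz, h z hz⟩

theorem kct_kl {l : ℕ} {e : V} : ∃ n : ℕ, n < l + 1 ∧ kct l e = nS n := by
  unfold kct
  by_cases h : ∃ n : ℕ, 3 ≤ n ∧ n ≤ l ∧ e = nS n
  · rw [sel_pos h]
    obtain ⟨n, h1, h2, h3⟩ := h
    exact ⟨n, by omega, h3⟩
  · rw [sel_neg h]
    exact ⟨0, by omega, rfl⟩

theorem kct_eq {l : ℕ} (hl : 3 ≤ l) {e : V} (he : kct l e = nS l) : e = nS l := by
  unfold kct at he
  by_cases h : ∃ n : ℕ, 3 ≤ n ∧ n ≤ l ∧ e = nS n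
  · rwa [sel_pos h] at he
  · rw [sel_neg h, nS_inj] at he
    omega

end H30CPF

open H30CPF in
theorem pf_CPF (PWE : T_PWE) (PSJ : T_PSJ) (POA : T_POA) (PHA : T_PHA) (PHB : T_PHB)
    (QC1 : T_QC1) (QI1 : T_QI1) (QRN : T_QRN) (BL : T_BL) (BBc : T_BBc) : T_CPF := by
  intro D κ b r hc hPV C h0 Z I Eo Eh ζ hC hZ hI nEo nEh hv hζ
  obtain ⟨am, ok, sN⟩ := hc
  have DO : D.Ok := am.ok
  have kN : ZFm D.N := DO.zfc.toZFCm.toZFm
  have hHN : ∀ x ∈ D.H, D.N x := fun x hx => kN.trans _ DO.hN x hx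
  have iwC : b.Iw D (b.Wd D) r C h0 := (PWE b D r C h0).1 hC
  have oC : b.Obs C := iwC.wo.o
  have csC : CS D (b.u C) := ok.cs C oC.o
  have nC : D.N (b.u C) := hHN _ csC.h
  have trC : Tr (b.u C) := fun i hi => (csC.c i hi).2
  have hSl : Sl b.l b.S := fun e he => ⟨(ok.sl e he).1, by have := (ok.sl e he).2; omega⟩
  have hVw : ∀ B ∈ b.Ob, Vws b.S (b.u B) := fun B hB i hi e he hk => ok.rk B hB i hi e he hk
  have hζ' : ζ ∈ D.H ∨ ζ = D.H := by
    rcases hζ with h | h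
    · exact Or.inr h
    · exact Or.inl h.1
  obtain ⟨R, P, B', nR, nB', hR, hP, hE⟩ := QC1 D κ am b ok C Z I Eo ζ oC.o hZ hI nEo
    (fun v hvI => (hv v hvI).2.le) hζ'
  let h' : V := resS I fun w => mvh (app P w) (app Eh w)
  have nh' : D.N h' := (tm_h BBc).1 D.N kN (cons I (cons P fun _ => Eh))
    (In.cons (In.cons (fun _ => nEh) hP.n) (hHN _ hI))
  have hh' : ∀ v ∈ I, app h' v = mvh (app P v) (app Eh v) := fun v hvI => app_resS hvI
  -- the number of a time which is not in ζ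
  have hsj : ∀ j, j ∈ D.H → b.sj D (b.Wd D) r (tct b.l ζ (nS b.l) (tm j)) =
      b.sj D (b.Wd D) r (tm j) := by
    intro j hj
    unfold tct
    by_cases ht : tm j ∈ ζ
    · rw [sel_neg (fun h => h.2 ht)]
    · rw [sel_pos ⟨rfl, ht⟩]
      rcases hζ with h | ⟨h1, h2, h3⟩
      · exfalso
        apply ht
        rw [h]
        exact tm_tm.1 (· ∈ D.H) DO.zfH (fun _ => j) (fun _ => hj)
      · obtain ⟨-, -, p3, -, -, -, p7, p8, -, p10, -⟩ := PSJ b D (b.Wd D)
        rw [p10 r r ζ h2 h3.symm, min_self]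
        by_contra hne
        have hlt : b.sj D (b.Wd D) r (tm j) < r := lt_of_le_of_ne (p7 r (tm j)) (Ne.symm hne)
        obtain ⟨q1, q2⟩ := p8 r (tm j) hlt
        apply ht
        rw [h3, ← q2]
        exact Ordinal.toZFSet_mem_toZFSet_iff.2 (p3 _ _ q1 hlt)
  have main : ∀ v ∈ I, b.SI D r (app P v) (app Eo v) (b.u (app B' v)) ∧ Idn (app P v) (b.u C) ∧
      app B' v = b.T (app P v) (app Eo v) ∧ app h' v = mvh (app P v) (app Eh v) ∧
      b.u (app B' v) = im (app P v) (b.u (app Eo v)) ∧ b.Wd D r (app B' v) (app h' v) ∧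
      b.LW D r C h0 (app B' v) (app h' v) ∧
      ∀ j ∈ b.u (app B' v), j ∉ b.u C → Kl (b.l + 1) j ∧ j ∉ Z ∧
        (ζ ∈ D.H → b.Co j → tm j ∈ insert ζ ζ) := by
    intro v hvI
    obtain ⟨e1, e2, e3, e4⟩ := hE v hvI
    obtain ⟨hw, hL⟩ := hv v hvI
    have iw : b.Iw D (b.Wd D) r (app Eo v) (app Eh v) := (PWE b D r _ _).1 hw
    have oE : b.Obs (app Eo v) := iw.wo.o
    have csE : CS D (b.u (app Eo v)) := ok.cs _ oE.o
    have nE : D.N (b.u (app Eo v)) := hHN _ csE.h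
    have subC : b.u C ⊆ b.u (app Eo v) := (ok.leO _ _ hL.le).2.2
    have csB : CS D (b.u (app B' v)) := ok.cs _ e3
    have nB : D.N (b.u (app B' v)) := hHN _ csB.h
    have subB : b.u C ⊆ b.u (app B' v) := (ok.leO _ _ e2).2.2
    have hi : Isl D b.l b.S (app P v) (b.u (app Eo v)) (im (app P v) (b.u (app Eo v))) := by
      have := hP.i v hvI
      rwa [hR v hvI] at this
    have hk := hP.k v hvI
    have hz := hP.z v hvI
    rw [hR v hvI] at hk hz
    have hid : Idn (app P v) (b.u C) := hP.d v hvI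
    have hco := (POA D κ am b ok _ oE).2.2
    have hcoC := (POA D κ am b ok _ oC).2.2
    have hsi : b.SI D r (app P v) (app Eo v) (b.u (app B' v)) := by
      refine ⟨?_, oE, ?_⟩
      · rw [e4]
        exact hi
      · intro j hj hcj
        by_cases hjC : j ∈ b.u C
        · rw [hid j hjC]
          refine ⟨(im_idn ?_).symm, rfl⟩
          intro i hi
          exact hid i ((hcoC j hjC hcj).2.1 hi)
        · obtain ⟨k1, k2, k3⟩ := hk j hj hjC
          refine ⟨k3 (hco j hj hcj).2.1, ?_⟩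
          rw [k2]
          have hkd : kd j = nS b.l := hcj
          rw [hkd]
          exact hsj j (DO.zfH.trans _ csE.h _ hj)
    -- the history `h0` is not changed
    obtain ⟨-, q2, -, -, q5⟩ := QI1 D DO b.l b.S _ _ _ hSl hi
    obtain ⟨q51, q52, -, -, -, q56⟩ := q5 (b.u C) nC subC trC (hVw C oC.o)
    have hB1 := PHB D DO b.l b.S _ _ _ hSl hi (app Eh v) r iw.wo.hs
    obtain ⟨-, -, -, -, hB5, -⟩ := hB1
    obtain ⟨hB6, hB7⟩ := (hB5 (b.u C) nC subC trC (hVw C oC.o) r).2 h0 iwC.wo.hs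
    have hidr : Idn (rst (b.u C) (app P v)) (b.u C) := by
      intro i hi
      rw [q52 i hi]
      exact hid i hi
    have hh0 : mvh (app P v) h0 = h0 := by
      rw [← hB6]
      exact (PHB D DO b.l b.S _ _ _ hSl q51 h0 r iwC.wo.hs).2.2.2.2.2 hidr
    have him : im (app P v) (b.u C) = b.u C := im_idn hid
    have hLW : b.LW D r C h0 (app B' v) (app h' v) := by
      refine ⟨e2, ?_⟩
      rw [hh0, him] at hB7
      rw [hh' v hvI, e4]
      exact hB7 hL.e
    have hWd : b.Wd D r (app B' v) (app h' v) := by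
      rw [e1, hh' v hvI]
      refine hPV.w (app P v) (app Eo v) (b.u (app B' v)) (app Eh v) hw hsi ?_
      intro e he hls G hG X y hEn hPt
      obtain ⟨i, hi', hki, hX⟩ := hPt
      rw [← e1] at hi'
      have hiC : i ∈ b.u C := by
        by_contra hiC
        rw [e4] at hi'
        obtain ⟨k, hk1, hk2⟩ := mem_imS.1 hi'
        have hkC : k ∉ b.u C := by
          intro h
          apply hiC
          rw [← hk2]
          show app (app P v) k ∈ b.u C
          rw [hid k h]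
          exact h
        have k1 := (hk k hk1 hkC).1
        obtain ⟨n, hn, hn2⟩ := kct_kl (l := b.l) (e := kd k)
        have : nS n = nS (b.l + 2) := by
          rw [← hn2, ← k1, ← hki, ← hk2]
        rw [nS_inj] at this
        omega
      have hQ := QRN D DO (b.u (app B' v)) G (b.u C) nB csB.c hG nC subB trC
      have hXC : RR D (b.u C) G X := by
        rw [hX]
        exact hQ.2.2.2.2.1 _ _ (hQ.2.2.2.2.2.2.1 1) (hQ.2.2.2.2.2.2.2.2.2.1 i hiC).2.2
      have hEn' : Ent (app h' v) G X y e := by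
        rw [hh' v hvI]
        exact hEn
      have hE0 : Ent h0 G X y e := ((hLW.e G hG X hXC y e).2 ⟨hEn', he⟩).1
      have hA := ((PHA D DO (b.u C) (b.u (app B' v)) h0 r nC csC.c nB csB.c subB iwC.wo.hs).1
        G hG).1 X y e
      have hGC : D.Gn (b.u C) (gs G (b.u C)) := ((BL D DO _ G nB csB.c hG).2 _ nC subB trC).1
      refine (iwC.w3 e he hls (gs G (b.u C)) hGC X y (hA.1.1 hE0)).1 ⟨i, hiC, hki, ?_⟩
      rw [hX, (hQ.2.2.2.2.2.2.2.2.2.2.2.2.2.2 i hiC).1]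
    refine ⟨hsi, hid, e1, hh' v hvI, e4, hWd, hLW, ?_⟩
    intro j hj hjC
    rw [e4] at hj
    obtain ⟨i, hi1, hi2⟩ := mem_imS.1 hj
    have hiC : i ∉ b.u C := by
      intro h
      apply hjC
      rw [← hi2]
      show app (app P v) i ∈ b.u C
      rw [hid i h]
      exact h
    have hi2' : app (app P v) i = j := hi2
    obtain ⟨k1, k2, -⟩ := hk i hi1 hiC
    rw [hi2'] at k1 k2
    have hjZ := (hz i hi1 hiC).2
    rw [hi2'] at hjZ
    refine ⟨?_, hjZ, ?_⟩
    · obtain ⟨n, hn, hn2⟩ := kct_kl (l := b.l) (e := kd i)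
      exact ⟨n, hn, by rw [k1, hn2]⟩
    · intro hζH hcj
      rw [k2]
      have h1 : kd j = nS b.l := hcj
      have h2 : kd i = nS b.l := kct_eq ok.l3 (by rw [← k1, h1])
      unfold tct
      by_cases ht : tm i ∈ ζ
      · rw [sel_neg (fun h => h.2 ht)]
        exact ZFSet.mem_insert_iff.2 (Or.inr ht)
      · rw [sel_pos ⟨h2, ht⟩]
        exact ZFSet.mem_insert_iff.2 (Or.inl rfl)
  refine ⟨P, B', h', hP.n, nB', nh', main, ?_⟩
  intro v hvI v' hvI' hne
  have m1 := main v hvI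
  have m2 := main v' hvI'
  have s1 : b.u C ⊆ b.u (app B' v) := (ok.leO _ _ (hE v hvI).2.1).2.2
  have s2 : b.u C ⊆ b.u (app B' v') := (ok.leO _ _ (hE v' hvI').2.1).2.2
  ext z
  rw [ZFSet.mem_inter]
  constructor
  · rintro ⟨h1, h2⟩
    rw [m1.2.2.2.2.1, ← hR v hvI] at h1
    rw [m2.2.2.2.2.1, ← hR v' hvI'] at h2
    exact hP.j v hvI v' hvI' hne z h1 h2
  · intro hz
    exact ⟨s1 hz, s2 hz⟩

end SE.UZ
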